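import Pool.Agent.Lib.MP_a60258_s6.Iface

/-! Module CSI (helper92): Cauchy-Schwarz with mirror graphs. -/

set_option autoImplicit false
set_option linter.unusedSimpArgs false

open MvPolynomial Finset

namespace A602.S6.H92

/-- every multi-index is the content of a word -/
lemma exists_word {α : Type} [Fintype α] [DecidableEq α] (y : α → ℕ) :
    ∃ (k : ℕ) (W : Fin k → α), ct W = y := by
  classical
  obtain ⟨e⟩ : Nonempty (Fin (Fintype.card (Σ a : α, Fin (y a))) ≃ Σ a : α, Fin (y a)) :=
    ⟨(Fintype.equivFin _).symm⟩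
  refine ⟨_, fun t => (e t).1, ?_⟩
  funext a
  simp only [ct, Finset.card_filter]
  rw [Equiv.sum_comp e fun s : Σ a : α, Fin (y a) => if s.1 = a then 1 else 0]
  rw [Fintype.sum_sigma]
  have h : ∀ b : α, (∑ _i : Fin (y b), if b = a then 1 else 0) = if b = a then y b else 0 :=
    fun b => by split_ifs <;> simp
  simp only [h]
  simp

lemma ct_diag {k : ℕ} (w : Fin k → Fin 3) :
    ct (fun t => (w t, w t)) = fun c : Fin 3 × Fin 3 => if c.1 = c.2 then ct w c.1 else 0 := by
  funext c
  obtain ⟨i, j⟩ := c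
  simp only [ct, Prod.mk.injEq]
  by_cases h : i = j
  · subst h
    rw [if_pos rfl]
    congr 1
    ext t
    simp
  · rw [if_neg h, Finset.card_eq_zero, Finset.filter_eq_empty_iff]
    rintro t - ⟨h1, h2⟩
    exact h (h1.symm.trans h2)

lemma ct_fst {k : ℕ} (W : Fin k → Fin 3 × Fin 3) : (ct fun t => (W t).1) = rowS (ct W) := by
  funext a
  simp only [rowS, ct, Finset.card_filter]
  rw [Finset.sum_comm]
  refine Finset.sum_congr rfl fun i _ => ?_
  have h : ∀ j : Fin 3, (if W i = (a, j) then 1 else 0)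
      = if (W i).2 = j then (if (W i).1 = a then 1 else 0) else 0 := fun j => by
    by_cases h1 : (W i).1 = a <;> by_cases h2 : (W i).2 = j <;>
      simp [Prod.ext_iff, h1, h2]
  rw [Finset.sum_congr rfl fun j _ => h j, Finset.sum_ite_eq]
  simp

lemma ct_snd {k : ℕ} (W : Fin k → Fin 3 × Fin 3) : (ct fun t => (W t).2) = colS (ct W) := by
  funext a
  simp only [colS, ct, Finset.card_filter]
  rw [Finset.sum_comm]
  refine Finset.sum_congr rfl fun i _ => ?_
  have h : ∀ j : Fin 3, (if W i = (j, a) then 1 else 0)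
      = if (W i).1 = j then (if (W i).2 = a then 1 else 0) else 0 := fun j => by
    by_cases h1 : (W i).1 = j <;> by_cases h2 : (W i).2 = a <;>
      simp [Prod.ext_iff, h1, h2]
  rw [Finset.sum_congr rfl fun j _ => h j, Finset.sum_ite_eq]
  simp

lemma ct_swap {k : ℕ} (W : Fin k → Fin 3 × Fin 3) :
    (ct fun t => ((W t).2, (W t).1)) = fun c => ct W (c.2, c.1) := by
  funext c
  simp only [ct]
  congr 1
  ext t
  simp only [Finset.mem_filter, Finset.mem_univ, true_and, Prod.ext_iff]
  tauto

/-- exchange of the two halves -/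
def tau : Equiv.Perm (Fin 6) where
  toFun := ![3, 4, 5, 0, 1, 2]
  invFun := ![3, 4, 5, 0, 1, 2]
  left_inv := by decide
  right_inv := by decide

theorem act_tau (m m' : Fin 3 → ℕ) (y : Fin 3 × Fin 3 → ℕ) :
    act tau (mk m m' y) = mk m' m fun c => y (c.2, c.1) := by
  funext e
  have h3 : ∀ i : Fin 3, i = 0 ∨ i = 1 ∨ i = 2 := by decide
  rcases e with i | i | ⟨i, j⟩
  · rcases h3 i with rfl | rfl | rfl <;>
      simp [act, tau, mk, pr, ends, in3, inl, inr, Fin.castAdd, Fin.natAdd, Fin.castLE]
  · rcases h3 i with rfl | rfl | rfl <;>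
      simp [act, tau, mk, pr, ends, in3, inl, inr, Fin.castAdd, Fin.natAdd, Fin.castLE]
  · rcases h3 i with rfl | rfl | rfl <;> rcases h3 j with rfl | rfl | rfl <;>
      simp [act, tau, mk, pr, ends, in3, inl, inr, Fin.castAdd, Fin.natAdd, Fin.castLE]

lemma Vx_sym (h2 : PvpStatement) (S : Finset ℕ) (P : R) (m m' : Fin 3 → ℕ)
    (y : Fin 3 × Fin 3 → ℕ) :
    Vx S P (mk m' m fun c => y (c.2, c.1)) = Vx S P (mk m m' y) := by
  rw [← act_tau, h2.2]

lemma app_const (P : R) : app (fun _ => P) (fun _ => P) = fun _ => P := by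
  refine fin6_ext (fun u => ?_) fun u => ?_
  · rw [app_inl]
  · rw [app_inr]

lemma rows_cmp {p : ℕ} {m m' : Fin 3 → ℕ} {y : Fin 3 × Fin 3 → ℕ} (h : Cmp p (mk m m' y)) :
    rowS y = lgs p m ∧ colS y = lgs p m' := by
  have h3 : ∀ i : Fin 3, i = 0 ∨ i = 1 ∨ i = 2 := by decide
  have key : ∀ v : Fin 6, deg (mk m m' y) v = p := h
  simp only [deg, mk, Fintype.sum_sum_type, Fintype.sum_prod_type, Fin.sum_univ_three,
    Sum.elim_inl, Sum.elim_inr, ends, in3] at key
  have k0 := key 0
  have k1 := key 1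
  have k2 := key 2
  have k3 := key 3
  have k4 := key 4
  have k5 := key 5
  have e0 : inl 0 = 0 := rfl
  have e1 : inl 1 = 1 := rfl
  have e2 : inl 2 = 2 := rfl
  have e3 : inr 0 = 3 := rfl
  have e4 : inr 1 = 4 := rfl
  have e5 : inr 2 = 5 := rfl
  simp [e0, e1, e2, e3, e4, e5] at k0 k1 k2 k3 k4 k5
  constructor
  · funext i
    rcases h3 i with rfl | rfl | rfl <;> simp [rowS, lgs, Fin.sum_univ_three] <;> omega
  · funext i
    rcases h3 i with rfl | rfl | rfl <;> simp [colS, lgs, Fin.sum_univ_three] <;> omega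

theorem csi (h1 : GluStatement) (h2 : PvpStatement) : CsiStatement := by
  intro S p P _
  constructor
  · intro m
    obtain ⟨k, w, hw⟩ := exists_word (lgs p m)
    have h := sos_pval (S := S) (ι := Unit) (fun _ => inL m) (fun _ => 1) k
      (fun _ => List.ofFn w) (fun _ _ => P) (fun _ => List.length_ofFn)
    simp only [app_const] at h
    simp only [Finset.univ_unique, Finset.sum_singleton, one_mul] at h
    rw [h1 S P k w w m m, ct_diag, hw] at h
    exact h
  · intro m m' y hy
    obtain ⟨k, W, hW⟩ := exists_word y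
    obtain ⟨hr, hc⟩ := rows_cmp hy
    have a11 : pval S (glue (List.ofFn fun t => (W t).1) (List.ofFn fun t => (W t).1) (inL m)
        (inL m)) (fun _ => P) = Vx S P (mir p m) := by
      rw [h1 S P k (fun t => (W t).1) (fun t => (W t).1) m m, ct_diag, ct_fst, hW, hr]
      rfl
    have a22 : pval S (glue (List.ofFn fun t => (W t).2) (List.ofFn fun t => (W t).2) (inL m')
        (inL m')) (fun _ => P) = Vx S P (mir p m') := by
      rw [h1 S P k (fun t => (W t).2) (fun t => (W t).2) m' m', ct_diag, ct_snd, hW, hc]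
      rfl
    have a12 : pval S (glue (List.ofFn fun t => (W t).1) (List.ofFn fun t => (W t).2) (inL m)
        (inL m')) (fun _ => P) = Vx S P (mk m m' y) := by
      rw [h1 S P k (fun t => (W t).1) (fun t => (W t).2) m m']
      rw [← hW]
    have a21 : pval S (glue (List.ofFn fun t => (W t).2) (List.ofFn fun t => (W t).1) (inL m')
        (inL m)) (fun _ => P) = Vx S P (mk m m' y) := by
      rw [h1 S P k (fun t => (W t).2) (fun t => (W t).1) m' m, ct_swap, hW, Vx_sym h2]
    have key : ∀ s : ℝ, s * s = 1 →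
        0 ≤ Vx S P (mir p m) + Vx S P (mir p m') + 2 * (s * Vx S P (mk m m' y)) := by
      intro s hs
      have h := sos_pval (S := S) (ι := Fin 2) ![inL m, inL m'] ![1, s] k
        ![List.ofFn fun t => (W t).1, List.ofFn fun t => (W t).2] (fun _ _ => P)
        (fun i => by fin_cases i <;> simp)
      simp only [app_const, Fin.sum_univ_two, Matrix.cons_val_zero, Matrix.cons_val_one,
        a11, a12, a21, a22] at h
      rw [hs] at h
      linarith
    have k1 := key 1 (by norm_num)
    have k2 := key (-1) (by norm_num)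
    have : |2 * Vx S P (mk m m' y)| ≤ Vx S P (mir p m) + Vx S P (mir p m') :=
      abs_le.2 ⟨by linarith, by linarith⟩
    rwa [abs_mul, abs_of_pos (by norm_num : (0 : ℝ) < 2)] at this

end A602.S6.H92
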